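import Pool.Agent.P8H88.GV.Ms
import Pool.Agent.N852.Div

/-!
# Project GV (helper5), package NF: norm of the test function and its correlation with the primes
-/

set_option autoImplicit false

open Finset Filter Topology

namespace Pool.Agent.P8H88.GV

open Pool.Agent.P8H5.GV

/-- powers of the logarithm are small -/
lemma log_pow_le (C : ℝ) (_hC : 0 ≤ C) (k : ℕ) (κ : ℝ) (hκ : 0 < κ) :
    ∃ N0 : ℕ, ∀ N : ℕ, N0 ≤ N → C * (1 + Real.log N) ^ k ≤ (N : ℝ) ^ κ := by
  have h1 : (fun x : ℝ => (1 + Real.log x) ^ (k + 1)) =o[atTop] fun x : ℝ => x ^ κ := by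
    have hk : (0 : ℝ) < κ / ((k : ℝ) + 1) := by positivity
    have h2 : (fun x : ℝ => 1 + Real.log x) =o[atTop] fun x : ℝ => x ^ (κ / ((k : ℝ) + 1)) := by
      refine Asymptotics.IsLittleO.add ?_ (isLittleO_log_rpow_atTop hk)
      exact Asymptotics.isLittleO_const_left.2 (Or.inr ((tendsto_rpow_atTop hk).congr' (by
        filter_upwards [Filter.eventually_ge_atTop (0 : ℝ)] with x hx
        rw [Function.comp_apply, Real.norm_of_nonneg (Real.rpow_nonneg hx _)])))
    have h3 := h2.pow (n := k + 1) (by omega)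
    refine h3.congr' (Filter.EventuallyEq.rfl) ?_
    filter_upwards [Filter.eventually_ge_atTop (0 : ℝ)] with x hx
    have h5 : (x ^ (κ / ((k : ℝ) + 1))) ^ (k + 1) = x ^ κ := by
      rw [← Real.rpow_natCast (x ^ (κ / ((k : ℝ) + 1))) (k + 1), ← Real.rpow_mul hx]
      congr 1
      push_cast
      field_simp
    exact h5
  have h2 := (h1.bound (show (0 : ℝ) < 1 by norm_num))
  have h3 := (tendsto_natCast_atTop_atTop (R := ℝ)).eventually h2
  obtain ⟨N0, hN0⟩ := Filter.eventually_atTop.1 h3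
  have hlog : Tendsto (fun N : ℕ => Real.log (N : ℝ)) atTop atTop :=
    Real.tendsto_log_atTop.comp (tendsto_natCast_atTop_atTop (R := ℝ))
  obtain ⟨N1, hN1⟩ := Filter.eventually_atTop.1 (hlog.eventually_ge_atTop C)
  refine ⟨N0 + N1 + 1, fun N hN => ?_⟩
  have h4 := hN0 N (by omega)
  have hN' : (1 : ℝ) ≤ N := by exact_mod_cast (by omega : 1 ≤ N)
  have hl := Real.log_nonneg hN'
  rw [one_mul, Real.norm_of_nonneg (by positivity), Real.norm_of_nonneg (Real.rpow_nonneg (by positivity) _)] at h4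
  refine le_trans ?_ h4
  rw [pow_succ, mul_comm]
  exact mul_le_mul_of_nonneg_left (by linarith [hN1 N (by omega)]) (by positivity)

lemma T_prime {D p : ℕ} (hD : 1 ≤ D) (hp : p.Prime) (h : D < p) : T D p = Real.log D := by
  unfold T
  have h1 : ¬ (p : ℝ) ≤ (D : ℝ) := by
    rw [not_le]
    exact_mod_cast h
  have h2 : ((1 : ℕ) : ℝ) ≤ (D : ℝ) := by exact_mod_cast hD
  have h3 : ({1, p} : Finset ℕ).filter (fun d : ℕ => (d : ℝ) ≤ (D : ℝ)) = {1} := by
    ext d
    simp only [Finset.mem_filter, Finset.mem_insert, Finset.mem_singleton]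
    constructor
    · rintro ⟨h4 | h4, h5⟩
      · exact h4
      · rw [h4] at h5
        exact absurd h5 h1
    · rintro rfl
      exact ⟨Or.inl rfl, h2⟩
  rw [Nat.Prime.divisors hp, h3, Finset.sum_singleton]
  unfold mu
  simp

lemma c_prime {r p : ℕ} (hr : 1 ≤ r) (hrp : r < p) (hp : p.Prime) : c r p = mu r := by
  unfold c
  have h1 : r.divisors.filter (fun d : ℕ => d ∣ p) = {1} := by
    ext d
    rw [Finset.mem_filter, Finset.mem_singleton, Nat.mem_divisors]
    constructor
    · rintro ⟨⟨h1, -⟩, h2⟩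
      rcases (Nat.dvd_prime hp).1 h2 with h3 | h3
      · exact h3
      · exact absurd (Nat.le_of_dvd hr h1) (by omega)
    · rintro rfl
      exact ⟨⟨one_dvd _, by omega⟩, one_dvd _⟩
  rw [h1, Finset.sum_singleton, Nat.div_one]
  simp

lemma F_prime (h : ∀ D n : ℕ, 1 ≤ n → T D n = ∑ r ∈ Icc 1 D, a D r * c r n) {D R p : ℕ} (hR : 1 ≤ R) (hRD : R ≤ D)
    (hp : p.Prime) (hDp : D < p) : F D R p = Real.log D - ∑ r ∈ Icc 1 R, a D r * mu r := by
  have h1 := h D p hp.pos
  rw [T_prime (by omega) hp hDp] at h1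
  have h2 : Icc 1 D = Icc 1 R ∪ Ioc R D := by
    ext r
    simp only [Finset.mem_union, Finset.mem_Icc, Finset.mem_Ioc]
    omega
  have h3 : Disjoint (Icc 1 R) (Ioc R D) := by
    rw [Finset.disjoint_left]
    intro r hr hr'
    rw [Finset.mem_Icc] at hr
    rw [Finset.mem_Ioc] at hr'
    omega
  rw [h2, Finset.sum_union h3] at h1
  have h4 : ∑ r ∈ Icc 1 R, a D r * c r p = ∑ r ∈ Icc 1 R, a D r * mu r := by
    refine Finset.sum_congr rfl fun r hr => ?_
    rw [Finset.mem_Icc] at hr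
    rw [c_prime hr.1 (by omega) hp]
  rw [h4] at h1
  unfold F
  linarith

lemma psi_eq (N : ℕ) : Chebyshev.psi N = ∑ n ∈ Icc 1 N, ArithmeticFunction.vonMangoldt n := by
  unfold Chebyshev.psi
  rw [Nat.floor_natCast]
  refine Finset.sum_congr ?_ fun _ _ => rfl
  ext p
  simp only [Finset.mem_Icc, Finset.mem_Ioc]
  constructor
  · rintro ⟨h1, h2⟩
    exact ⟨h1, h2⟩
  · rintro ⟨h1, h2⟩
    exact ⟨h1, h2⟩

/-- **NF** -/
theorem nf (hms : S_MS) (hram : S_RAM) (hqq : S_QQ) : S_NF := by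
  intro ε η hε hη
  obtain ⟨hram1, -, hram3, C2, hC20, hram4⟩ := hram
  obtain ⟨C3, hC3⟩ := hqq.2.2.1 (ε / 4) (by linarith)
  obtain ⟨C4, hC4⟩ := hqq.2.2.2 (ε / 4) (by linarith)
  obtain ⟨N1, hN1⟩ := hms (ε / 4) η (by linarith) hη
  set δ : ℝ := ε / (4 * (2 + ε)) with hδd
  have hδ : 0 < δ := by positivity
  obtain ⟨N2, hN2⟩ := theta_close (δ / 2) (by linarith)
  have hlog : Tendsto (fun N : ℕ => Real.log (N : ℝ)) atTop atTop :=
    Real.tendsto_log_atTop.comp (tendsto_natCast_atTop_atTop (R := ℝ))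
  obtain ⟨N3, hN3⟩ := Filter.eventually_atTop.1 (hlog.eventually_ge_atTop ((|C3| + |C4| + 2) / (ε / 4)))
  obtain ⟨N3', hN3'⟩ := Filter.eventually_atTop.1 (hlog.eventually_ge_atTop (|C4|))
  set δ' : ℝ := min η 1 / 8 with hδ'd
  have hδ' : 0 < δ' := by
    have : 0 < min η 1 := lt_min hη one_pos
    positivity
  have hδη : δ' ≤ η / 8 := by
    rw [hδ'd]
    have := min_le_left η 1
    linarith
  have hδ1 : δ' ≤ 1 / 8 := by
    rw [hδ'd]
    have := min_le_right η 1
    linarith
  obtain ⟨Cτ, hCτ0, hCτ⟩ := Pool.Agent.N852.divisor_bound δ' hδ'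
  obtain ⟨N4, hN4⟩ := log_pow_le (4 * Cτ) (by positivity) 4 δ' hδ'
  obtain ⟨N5, hN5⟩ := log_pow_le C2 hC20.le 6 η hη
  obtain ⟨N6, hN6⟩ := log_pow_le (4 / δ) (by positivity) 0 η hη
  refine ⟨N1 + N2 + N3 + N3' + N4 + N5 + N6 + 1, fun N hN D R hND hR hRD hRDN => ?_⟩
  have hNpos : (0 : ℝ) < N := by exact_mod_cast (by omega : 0 < N)
  have hN1' : (1 : ℝ) ≤ N := by exact_mod_cast (by omega : 1 ≤ N)
  have hD1 : 1 ≤ D := hR.trans hRD
  have hR1' : (1 : ℝ) ≤ R := by exact_mod_cast hR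
  have hD1' : (1 : ℝ) ≤ D := by exact_mod_cast hD1
  have hDη : (D : ℝ) ≤ (N : ℝ) ^ (1 - η) := le_trans (by nlinarith) hRDN
  have hDN' : (D : ℝ) ≤ N := hDη.trans (by
    calc (N : ℝ) ^ (1 - η) ≤ (N : ℝ) ^ (1 : ℝ) := Real.rpow_le_rpow_of_exponent_le hN1' (by linarith)
      _ = N := Real.rpow_one _)
  have hDN : D ≤ N := by exact_mod_cast hDN'
  have hlogN := Real.log_nonneg hN1'
  have hlogD := Real.log_nonneg hD1'
  have hlogR := Real.log_nonneg hR1'
  have hlogDN : Real.log D ≤ Real.log N := Real.log_le_log (by linarith) hDN'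
  have hlogRD : Real.log R ≤ Real.log D := Real.log_le_log (by linarith) (by exact_mod_cast hRD)
  have hbig : |C3| + |C4| + 2 ≤ ε / 4 * Real.log N := by
    have h1 := hN3 N (by omega)
    rw [div_le_iff₀ (by linarith)] at h1
    linarith
  have hC3a := le_abs_self C3
  have hC3b := abs_nonneg C3
  have hC4a := le_abs_self C4
  have hC4c := neg_abs_le C4
  have hC4b := abs_nonneg C4
  constructor
  · -- the norm
    have h1 := hram4 D R N hR hRD
    have h2 := hN1 N (by omega) D hND hDN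
    have h3 := hC3 D R hR hRD
    have h4 : C2 * (R * D * (1 + Real.log D) ^ 6) ≤ N := by
      have h5 := hN5 N (by omega)
      have h6 : (1 + Real.log D) ^ 6 ≤ (1 + Real.log N) ^ 6 := pow_le_pow_left₀ (by linarith) (by linarith) 6
      calc C2 * (R * D * (1 + Real.log D) ^ 6) ≤ C2 * ((N : ℝ) ^ (1 - η) * (1 + Real.log N) ^ 6) :=
            mul_le_mul_of_nonneg_left (mul_le_mul hRDN h6 (by positivity) (Real.rpow_nonneg hNpos.le _)) hC20.le
        _ = (N : ℝ) ^ (1 - η) * (C2 * (1 + Real.log N) ^ 6) := by ring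
        _ ≤ (N : ℝ) ^ (1 - η) * (N : ℝ) ^ η := mul_le_mul_of_nonneg_left h5 (Real.rpow_nonneg hNpos.le _)
        _ = N := by
          rw [← Real.rpow_add hNpos]
          norm_num
    have h7 : (N : ℝ) * ((1 - ε / 4) * Real.log R - C3) ≤ N * ∑ r ∈ Icc 1 R, (Nat.totient r : ℝ) * a D r ^ 2 :=
      mul_le_mul_of_nonneg_left h3 hNpos.le
    have h8 : (N : ℝ) * (Real.log D + ε / 4 * Real.log N) - N * ((1 - ε / 4) * Real.log R - C3) + N ≤
        N * (Real.log D - Real.log R + ε * Real.log N) := by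
      have h9 : Real.log D + ε / 4 * Real.log N - ((1 - ε / 4) * Real.log R - C3) + 1 ≤
          Real.log D - Real.log R + ε * Real.log N := by
        have h10 : ε / 4 * Real.log R ≤ ε / 4 * Real.log N := mul_le_mul_of_nonneg_left (by linarith) (by linarith)
        nlinarith
      calc _ = (N : ℝ) * (Real.log D + ε / 4 * Real.log N - ((1 - ε / 4) * Real.log R - C3) + 1) := by ring
        _ ≤ _ := mul_le_mul_of_nonneg_left h9 hNpos.le
    linarith
  · -- the correlation
    set B : ℝ := Real.log D - (1 + ε / 4) * Real.log R - C4 with hB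
    set P := (Ioc D N).filter Nat.Prime with hP
    have hPsub : P ⊆ Icc 1 N := by
      intro p hp
      rw [hP, Finset.mem_filter, Finset.mem_Ioc] at hp
      rw [Finset.mem_Icc]
      omega
    have hθ : Chebyshev.theta N - Chebyshev.theta D = ∑ p ∈ P, Real.log p := by
      rw [theta_eq, theta_eq, hP]
      have h1 : (Icc 1 N).filter Nat.Prime = (Icc 1 D).filter Nat.Prime ∪ (Ioc D N).filter Nat.Prime := by
        ext p
        simp only [Finset.mem_union, Finset.mem_filter, Finset.mem_Icc, Finset.mem_Ioc]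
        constructor
        · rintro ⟨⟨h1, h2⟩, h3⟩
          rcases Nat.lt_or_ge D p with h4 | h4
          · exact Or.inr ⟨⟨h4, h2⟩, h3⟩
          · exact Or.inl ⟨⟨h1, h4⟩, h3⟩
        · rintro (⟨⟨h1, h2⟩, h3⟩ | ⟨⟨h1, h2⟩, h3⟩)
          · exact ⟨⟨h1, by omega⟩, h3⟩
          · exact ⟨⟨by omega, h2⟩, h3⟩
      have h2 : Disjoint ((Icc 1 D).filter Nat.Prime) ((Ioc D N).filter Nat.Prime) := by
        rw [Finset.disjoint_left]
        intro p hp hp'
        rw [Finset.mem_filter, Finset.mem_Icc] at hp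
        rw [Finset.mem_filter, Finset.mem_Ioc] at hp'
        omega
      rw [h1, Finset.sum_union h2]
      ring
    have hmain : B * (Chebyshev.theta N - Chebyshev.theta D) ≤
        ∑ n ∈ P, ArithmeticFunction.vonMangoldt n * F D R n := by
      rw [hθ, Finset.mul_sum]
      refine Finset.sum_le_sum fun p hp => ?_
      rw [hP, Finset.mem_filter, Finset.mem_Ioc] at hp
      rw [ArithmeticFunction.vonMangoldt_apply_prime hp.2, F_prime hram1 hR hRD hp.2 hp.1.1, mul_comm]
      refine mul_le_mul_of_nonneg_left ?_ (Real.log_nonneg (by exact_mod_cast hp.2.one_lt.le))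
      have := hC4 D R hR hRD
      rw [hB]
      linarith
    -- the other integers
    have hlog4 : Real.log 4 ≤ 2 := by
      have : Real.log 4 = 2 * Real.log 2 := by
        rw [show (4 : ℝ) = 2 ^ 2 by norm_num, Real.log_pow]
        norm_num
      rw [this]
      have := Real.log_two_lt_d9
      linarith
    have hθD : Chebyshev.theta D ≤ 2 * D :=
      (Chebyshev.theta_le_log4_mul_x (by positivity)).trans (mul_le_mul_of_nonneg_right hlog4 (by positivity))
    have hθD0 : 0 ≤ Chebyshev.theta D := by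
      rw [theta_eq]
      refine Finset.sum_nonneg fun p hp => ?_
      rw [Finset.mem_filter] at hp
      exact Real.log_nonneg (by exact_mod_cast hp.2.one_lt.le)
    have hrest : |∑ n ∈ Icc 1 N \ P, ArithmeticFunction.vonMangoldt n * F D R n| ≤ N := by
      have h1 : ∀ n ∈ Icc 1 N \ P, |ArithmeticFunction.vonMangoldt n * F D R n| ≤
          ArithmeticFunction.vonMangoldt n * ((1 + Real.log N) ^ 3 * (Cτ * (N : ℝ) ^ δ')) := by
        intro n hn
        rw [Finset.mem_sdiff, Finset.mem_Icc] at hn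
        rw [abs_mul, abs_of_nonneg ArithmeticFunction.vonMangoldt_nonneg]
        refine mul_le_mul_of_nonneg_left ?_ ArithmeticFunction.vonMangoldt_nonneg
        refine (hram3 D R n hD1 hn.1.1).trans ?_
        refine mul_le_mul (pow_le_pow_left₀ (by linarith) (by linarith) 3) ?_ (by positivity) (by positivity)
        refine (hCτ n (by omega)).trans (mul_le_mul_of_nonneg_left ?_ hCτ0.le)
        exact Real.rpow_le_rpow (by positivity) (by exact_mod_cast hn.1.2) hδ'.le
      refine (Finset.abs_sum_le_sum_abs _ _).trans ((Finset.sum_le_sum h1).trans ?_)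
      rw [← Finset.sum_mul]
      have h2 : ∑ n ∈ Icc 1 N \ P, ArithmeticFunction.vonMangoldt n ≤ 2 * Real.sqrt N * Real.log N + 2 * D := by
        have h3 : ∑ n ∈ Icc 1 N \ P, ArithmeticFunction.vonMangoldt n + ∑ n ∈ P, ArithmeticFunction.vonMangoldt n =
            Chebyshev.psi N := by
          rw [psi_eq, Finset.sum_sdiff hPsub]
        have h4 : ∑ n ∈ P, ArithmeticFunction.vonMangoldt n = Chebyshev.theta N - Chebyshev.theta D := by
          rw [hθ]
          refine Finset.sum_congr rfl fun p hp => ?_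
          rw [hP, Finset.mem_filter] at hp
          exact ArithmeticFunction.vonMangoldt_apply_prime hp.2
        have h5 := Chebyshev.abs_psi_sub_theta_le_sqrt_mul_log hN1'
        have h6 := (abs_le.1 h5).2
        linarith
      have h3 : (2 * Real.sqrt N * Real.log N + 2 * D) ≤ 2 * (1 + Real.log N) * ((N : ℝ) ^ (1 / 2 : ℝ) + (N : ℝ) ^ (1 - η)) := by
        rw [Real.sqrt_eq_rpow]
        have e1 : 0 ≤ (N : ℝ) ^ (1 / 2 : ℝ) := Real.rpow_nonneg hNpos.le _
        have e2 : 0 ≤ (N : ℝ) ^ (1 - η) := Real.rpow_nonneg hNpos.le _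
        nlinarith
      have h4 := hN4 N (by omega)
      have e0 : 0 ≤ (N : ℝ) ^ δ' := Real.rpow_nonneg hNpos.le _
      have e1 : 0 ≤ (N : ℝ) ^ (1 / 2 : ℝ) := Real.rpow_nonneg hNpos.le _
      have e2 : 0 ≤ (N : ℝ) ^ (1 - η) := Real.rpow_nonneg hNpos.le _
      have e3 : 0 ≤ (1 + Real.log N) ^ 3 * (Cτ * (N : ℝ) ^ δ') := by positivity
      have h5 : (N : ℝ) ^ δ' * (N : ℝ) ^ δ' * (N : ℝ) ^ (1 / 2 : ℝ) ≤ N := by
        rw [← Real.rpow_add hNpos, ← Real.rpow_add hNpos]
        calc (N : ℝ) ^ (δ' + δ' + 1 / 2) ≤ (N : ℝ) ^ (1 : ℝ) := Real.rpow_le_rpow_of_exponent_le hN1' (by linarith)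
          _ = N := Real.rpow_one _
      have h6 : (N : ℝ) ^ δ' * (N : ℝ) ^ δ' * (N : ℝ) ^ (1 - η) ≤ N := by
        rw [← Real.rpow_add hNpos, ← Real.rpow_add hNpos]
        calc (N : ℝ) ^ (δ' + δ' + (1 - η)) ≤ (N : ℝ) ^ (1 : ℝ) := Real.rpow_le_rpow_of_exponent_le hN1' (by linarith)
          _ = N := Real.rpow_one _
      calc (∑ n ∈ Icc 1 N \ P, ArithmeticFunction.vonMangoldt n) * ((1 + Real.log N) ^ 3 * (Cτ * (N : ℝ) ^ δ')) ≤
            (2 * (1 + Real.log N) * ((N : ℝ) ^ (1 / 2 : ℝ) + (N : ℝ) ^ (1 - η))) *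
              ((1 + Real.log N) ^ 3 * (Cτ * (N : ℝ) ^ δ')) := mul_le_mul_of_nonneg_right (h2.trans h3) e3
        _ = (4 * Cτ * (1 + Real.log N) ^ 4) * (N : ℝ) ^ δ' * ((N : ℝ) ^ (1 / 2 : ℝ) + (N : ℝ) ^ (1 - η)) / 2 := by ring
        _ ≤ ((N : ℝ) ^ δ') * (N : ℝ) ^ δ' * ((N : ℝ) ^ (1 / 2 : ℝ) + (N : ℝ) ^ (1 - η)) / 2 := by
            have := mul_le_mul_of_nonneg_right h4 (mul_nonneg e0 (add_nonneg e1 e2))
            linarith
        _ ≤ N := by linarith
    -- the main term
    have hθN := hN2 N (by omega)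
    have hDδ : 2 * (D : ℝ) ≤ δ / 2 * N := by
      have h1 := hN6 N (by omega)
      rw [pow_zero, mul_one, div_le_iff₀ hδ] at h1
      have h2 : (N : ℝ) ^ (1 - η) * (N : ℝ) ^ η = N := by
        rw [← Real.rpow_add hNpos]
        norm_num
      have h3 : 0 ≤ (N : ℝ) ^ (1 - η) := Real.rpow_nonneg hNpos.le _
      have h4 : (N : ℝ) ^ (1 - η) * 4 ≤ (N : ℝ) ^ (1 - η) * ((N : ℝ) ^ η * δ) := mul_le_mul_of_nonneg_left h1 h3
      rw [← mul_assoc, h2] at h4
      linarith
    have hBabs : |B| ≤ (2 + ε) * Real.log N := by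
      have h1 := hN3' N (by omega)
      have h2 : 0 ≤ ε / 4 * Real.log R := by positivity
      have h3 : ε / 4 * Real.log R ≤ ε / 4 * Real.log N := mul_le_mul_of_nonneg_left (by linarith) (by linarith)
      have h4 : 0 ≤ ε * Real.log N := by positivity
      rw [abs_le, hB]
      constructor
      · nlinarith
      · nlinarith
    have hBθ : B * N - ε / 4 * (N * Real.log N) ≤ B * (Chebyshev.theta N - Chebyshev.theta D) := by
      have h1 : |Chebyshev.theta N - Chebyshev.theta D - N| ≤ δ * N := by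
        rw [abs_le]
        constructor
        · linarith [hθN.1]
        · linarith [hθN.2]
      have h2 : |B * (Chebyshev.theta N - Chebyshev.theta D - N)| ≤ (2 + ε) * Real.log N * (δ * N) := by
        rw [abs_mul]
        exact mul_le_mul hBabs h1 (abs_nonneg _) (by positivity)
      have h3 : (2 + ε) * Real.log N * (δ * N) = ε / 4 * (N * Real.log N) := by
        rw [hδd]
        have : (2 + ε) ≠ 0 := by linarith
        field_simp
      rw [h3] at h2
      have h4 := (abs_le.1 h2).1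
      linarith
    have hsplit : ∑ n ∈ Icc 1 N, ArithmeticFunction.vonMangoldt n * F D R n =
        ∑ n ∈ Icc 1 N \ P, ArithmeticFunction.vonMangoldt n * F D R n +
          ∑ n ∈ P, ArithmeticFunction.vonMangoldt n * F D R n := (Finset.sum_sdiff hPsub).symm
    rw [hsplit]
    have hr := (abs_le.1 hrest).1
    have hfin : Real.log D - Real.log R - ε * Real.log N ≤ B - ε / 4 * Real.log N - 1 := by
      rw [hB]
      have h3 : ε / 4 * Real.log R ≤ ε / 4 * Real.log N := mul_le_mul_of_nonneg_left (by linarith) (by linarith)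
      nlinarith
    have hfin2 := mul_le_mul_of_nonneg_left hfin hNpos.le
    calc (N : ℝ) * (Real.log D - Real.log R - ε * Real.log N) ≤ N * (B - ε / 4 * Real.log N - 1) := hfin2
      _ = -N + (B * N - ε / 4 * (N * Real.log N)) := by ring
      _ ≤ _ := by linarith

end Pool.Agent.P8H88.GV
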