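import Pool.Agent.P8H88.GV.Sqf
import Pool.Agent.Helper923.PNT

/-!
# Project GV (helper5), package MS: the mean square of the truncated divisor sums (upper bound, also beyond `√N`)
-/

set_option autoImplicit false

open Finset Filter Topology

namespace Pool.Agent.P8H88.GV

open Pool.Agent.P8H5.GV

lemma theta_eq (N : ℕ) : Chebyshev.theta N = ∑ p ∈ (Icc 1 N).filter Nat.Prime, Real.log p := by
  unfold Chebyshev.theta
  rw [Nat.floor_natCast]
  refine Finset.sum_congr ?_ fun _ _ => rfl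
  ext p
  simp only [Finset.mem_filter, Finset.mem_Icc, Finset.mem_Ioc]
  constructor
  · rintro ⟨⟨h1, h2⟩, h3⟩
    exact ⟨⟨h1, h2⟩, h3⟩
  · rintro ⟨⟨h1, h2⟩, h3⟩
    exact ⟨⟨h1, h2⟩, h3⟩

lemma log_sq_sum (N : ℕ) : ∑ p ∈ (Icc 1 N).filter Nat.Prime, Real.log p ^ 2 ≤ Real.log N * Chebyshev.theta N := by
  rw [theta_eq, Finset.mul_sum]
  refine Finset.sum_le_sum fun p hp => ?_
  rw [Finset.mem_filter, Finset.mem_Icc] at hp
  have h1 : (1 : ℝ) ≤ p := by exact_mod_cast hp.1.1
  have h2 : (p : ℝ) ≤ N := by exact_mod_cast hp.1.2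
  have h3 : Real.log p ≤ Real.log N := Real.log_le_log (by linarith) h2
  have h4 := Real.log_nonneg h1
  nlinarith

/-- `θ(N)` is close to `N` -/
lemma theta_close (δ : ℝ) (hδ : 0 < δ) : ∃ N0 : ℕ, ∀ N : ℕ, N0 ≤ N →
    (1 - δ) * N ≤ Chebyshev.theta N ∧ Chebyshev.theta N ≤ (1 + δ) * N := by
  have h1 := Pool.Agent.Helper923.PNT.theta_div_tendsto.comp (tendsto_natCast_atTop_atTop (R := ℝ))
  have h2 := h1.eventually (Metric.ball_mem_nhds 1 hδ)
  rw [Filter.eventually_atTop] at h2
  obtain ⟨N0, hN0⟩ := h2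
  refine ⟨N0 + 1, fun N hN => ?_⟩
  have h3 := hN0 N (by omega)
  have hN' : (0 : ℝ) < N := by exact_mod_cast (by omega : 0 < N)
  rw [Real.dist_eq, abs_lt] at h3
  simp only [Function.comp_apply] at h3
  constructor
  · have h4 : 1 - δ < Chebyshev.theta N / N := by linarith [h3.1]
    rw [lt_div_iff₀ hN'] at h4
    exact h4.le
  · have h4 : Chebyshev.theta N / N < 1 + δ := by linarith [h3.2]
    rw [div_lt_iff₀ hN'] at h4
    exact h4.le

/-- the primes in `(D, N]` -/
lemma prime_log_sum (ε : ℝ) (hε : 0 < ε) : ∃ N0 : ℕ, ∀ N : ℕ, N0 ≤ N → ∀ D : ℕ, 1 ≤ D → D ≤ N →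
    N * (Real.log (N / D) - ε * Real.log N) ≤ ∑ p ∈ (Ioc D N).filter Nat.Prime, Real.log p * Real.log (p / D) := by
  set δ := ε / 2 with hδd
  have hδ : 0 < δ := by rw [hδd]; linarith
  obtain ⟨N1, hN1⟩ := theta_close (δ / 2) (by linarith)
  have hlim : Tendsto (fun N : ℕ => 2 * (N : ℝ) ^ (-δ)) atTop (𝓝 (2 * 0)) :=
    ((tendsto_rpow_neg_atTop hδ).comp (tendsto_natCast_atTop_atTop (R := ℝ))).const_mul 2
  rw [mul_zero] at hlim
  have h2 := hlim.eventually (gt_mem_nhds (show (0 : ℝ) < δ / 2 by linarith))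
  rw [Filter.eventually_atTop] at h2
  obtain ⟨N2, hN2⟩ := h2
  refine ⟨N1 + N2 + 1, fun N hN D hD hDN => ?_⟩
  have hNpos : (0 : ℝ) < N := by exact_mod_cast (by omega : 0 < N)
  have hN1' : (1 : ℝ) ≤ N := by exact_mod_cast (by omega : 1 ≤ N)
  have hDpos : (0 : ℝ) < D := by exact_mod_cast hD
  have hD1 : (1 : ℝ) ≤ D := by exact_mod_cast hD
  have hlogN := Real.log_nonneg hN1'
  have hlogD := Real.log_nonneg hD1
  have hnonneg : ∀ p ∈ (Ioc D N).filter Nat.Prime, 0 ≤ Real.log p * Real.log (p / D) := by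
    intro p hp
    rw [Finset.mem_filter, Finset.mem_Ioc] at hp
    have h1 : (D : ℝ) < p := by exact_mod_cast hp.1.1
    refine mul_nonneg (Real.log_nonneg (by linarith)) (Real.log_nonneg ?_)
    rw [le_div_iff₀ hDpos]
    linarith
  rcases le_or_gt (Real.log (N / D)) (ε * Real.log N) with hsmall | hbig
  · refine le_trans ?_ (Finset.sum_nonneg hnonneg)
    exact mul_nonpos_of_nonneg_of_nonpos hNpos.le (by linarith)
  · have hlND : Real.log (N / D) = Real.log N - Real.log D := Real.log_div hNpos.ne' hDpos.ne'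
    set Y : ℝ := (N : ℝ) ^ (1 - δ) with hY
    have hYpos : 0 < Y := Real.rpow_pos_of_pos hNpos _
    have hlogY : Real.log Y = (1 - δ) * Real.log N := Real.log_rpow hNpos _
    have hYD : (D : ℝ) ≤ Y := by
      rw [← Real.log_le_log_iff hDpos hYpos, hlogY]
      rw [hlND] at hbig
      nlinarith
    set L := Real.log (Y / D) with hL
    have hLe : L = Real.log (N / D) - δ * Real.log N := by
      rw [hL, Real.log_div hYpos.ne' hDpos.ne', hlogY, hlND]
      ring
    have hL0 : 0 ≤ L := by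
      rw [hL]
      refine Real.log_nonneg ?_
      rw [le_div_iff₀ hDpos]
      linarith
    have hLN : L ≤ Real.log N := by
      rw [hLe, hlND]
      nlinarith
    -- the primes above `Y`
    have h3 : L * (Chebyshev.theta N - Chebyshev.theta Y) ≤
        ∑ p ∈ (Ioc D N).filter Nat.Prime, Real.log p * Real.log (p / D) := by
      have h4 : Chebyshev.theta N - Chebyshev.theta Y ≤ ∑ p ∈ ((Ioc D N).filter Nat.Prime).filter (fun p : ℕ => Y ≤ p),
          Real.log p := by
        rw [theta_eq, sub_le_iff_le_add]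
        rw [← Finset.sum_filter_add_sum_filter_not ((Icc 1 N).filter Nat.Prime) (fun p : ℕ => Y ≤ (p : ℝ))]
        refine add_le_add ?_ ?_
        · refine Finset.sum_le_sum_of_subset_of_nonneg (fun p hp => ?_) fun p hp _ => ?_
          · simp only [Finset.mem_filter, Finset.mem_Icc, Finset.mem_Ioc] at hp ⊢
            refine ⟨⟨⟨?_, hp.1.1.2⟩, hp.1.2⟩, hp.2⟩
            by_contra hle
            have h5 : (p : ℝ) ≤ D := by exact_mod_cast not_lt.1 hle
            have h6 : (D : ℝ) = Y := le_antisymm hYD (hp.2.trans h5)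
            -- then `L = 0`, contradiction with the size of `log (N/D)`
            have h7 : L = 0 := by rw [hL, ← h6, div_self hDpos.ne', Real.log_one]
            rw [hLe] at h7
            rcases eq_or_lt_of_le hlogN with h8 | h8
            · rw [← h8] at h7 hbig
              rw [hlND] at hbig
              linarith
            · nlinarith
          · rw [Finset.mem_filter, Finset.mem_filter, Finset.mem_Ioc] at hp
            exact Real.log_nonneg (by exact_mod_cast hp.1.2.one_lt.le)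
        · unfold Chebyshev.theta
          refine Finset.sum_le_sum_of_subset_of_nonneg (fun p hp => ?_) fun p hp _ => ?_
          · simp only [Finset.mem_filter, Finset.mem_Icc, Finset.mem_Ioc, not_le] at hp ⊢
            exact ⟨⟨hp.1.1.1, Nat.le_floor hp.2.le⟩, hp.1.2⟩
          · rw [Finset.mem_filter] at hp
            exact Real.log_nonneg (by exact_mod_cast hp.2.one_lt.le)
      refine (mul_le_mul_of_nonneg_left h4 hL0).trans ?_
      rw [Finset.mul_sum]
      refine (Finset.sum_le_sum fun p hp => ?_).trans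
        (Finset.sum_le_sum_of_subset_of_nonneg (Finset.filter_subset (fun p : ℕ => Y ≤ (p : ℝ)) _) fun p hp _ => hnonneg p hp)
      rw [Finset.mem_filter, Finset.mem_filter] at hp
      have h5 : 0 ≤ Real.log p := Real.log_nonneg (by exact_mod_cast hp.1.2.one_lt.le)
      have h6 : L ≤ Real.log (p / D) := Real.log_le_log (by positivity) (div_le_div_of_nonneg_right hp.2 hDpos.le)
      nlinarith
    -- Chebyshev
    have h5 := (hN1 N (by omega)).1
    have h6 : Chebyshev.theta Y ≤ δ / 2 * N := by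
      have h7 : Chebyshev.theta Y ≤ Real.log 4 * Y := Chebyshev.theta_le_log4_mul_x hYpos.le
      have h8 : Real.log 4 ≤ 2 := by
        have : Real.log 4 = 2 * Real.log 2 := by
          rw [show (4 : ℝ) = 2 ^ 2 by norm_num, Real.log_pow]
          norm_num
        rw [this]
        have := Real.log_two_lt_d9
        linarith
      have h9 := hN2 N (by omega)
      have h10 : Y = N * (N : ℝ) ^ (-δ) := by
        rw [hY, sub_eq_add_neg, Real.rpow_add hNpos, Real.rpow_one]
      have h11 : 0 < (N : ℝ) ^ (-δ) := Real.rpow_pos_of_pos hNpos _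
      rw [h10] at h7 ⊢
      have h12 : Real.log 4 * (N * (N : ℝ) ^ (-δ)) ≤ 2 * (N * (N : ℝ) ^ (-δ)) :=
        mul_le_mul_of_nonneg_right h8 (by positivity)
      have h13 : N * (2 * (N : ℝ) ^ (-δ)) ≤ N * (δ / 2) := mul_le_mul_of_nonneg_left h9.le hNpos.le
      linarith
    refine le_trans ?_ h3
    have h7 : (1 - δ) * N ≤ Chebyshev.theta N - Chebyshev.theta Y := by linarith
    refine le_trans ?_ (mul_le_mul_of_nonneg_left h7 hL0)
    have h8 : L * δ ≤ Real.log N * δ := mul_le_mul_of_nonneg_right hLN hδ.le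
    have h9 : Real.log (N / D) - ε * Real.log N ≤ L * (1 - δ) := by
      rw [hLe] at h8 ⊢
      rw [hδd] at h8 ⊢
      linarith
    calc N * (Real.log (N / D) - ε * Real.log N) ≤ N * (L * (1 - δ)) := mul_le_mul_of_nonneg_left h9 hNpos.le
      _ = _ := by ring

lemma floor_lt_one {z : ℝ} (hz : z < 1) : ⌊z⌋₊ = 0 := Nat.floor_eq_zero.2 hz

lemma Q2_zero {z : ℝ} (hz : z < 1) : Q2 z z = 0 := by
  unfold Q2
  rw [max_self, floor_lt_one hz]
  simp

/-- **MS** -/
theorem ms (hblg : S_BLG) (hqq : S_QQ) (hnsq : S_NSQ) : S_MS := by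
  intro ε η hε hη
  obtain ⟨C, hC⟩ := hqq.1 (ε / 8) (by linarith)
  obtain ⟨N1, hN1⟩ := hnsq (ε / 8) η (by linarith) hη
  obtain ⟨N2, hN2⟩ := prime_log_sum (ε / 8) (by linarith)
  obtain ⟨N3, hN3⟩ := theta_close (ε / 8) (by linarith)
  have hlog : Tendsto (fun N : ℕ => Real.log (N : ℝ)) atTop atTop :=
    Real.tendsto_log_atTop.comp (tendsto_natCast_atTop_atTop (R := ℝ))
  obtain ⟨N4, hN4⟩ := Filter.eventually_atTop.1 (hlog.eventually_ge_atTop ((|C| + 2) / (ε / 8)))
  -- powers of the logarithm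
  have hpow : ∀ κ : ℝ, 0 < κ → ∃ N0 : ℕ, ∀ N : ℕ, N0 ≤ N → (1 + Real.log N) ^ 2 ≤ (N : ℝ) ^ κ := by
    intro κ hκ
    have h1 : (fun x : ℝ => (1 + Real.log x) ^ 2) =o[atTop] fun x : ℝ => x ^ κ := by
      have h2 : (fun x : ℝ => 1 + Real.log x) =o[atTop] fun x : ℝ => x ^ (κ / 2) := by
        refine Asymptotics.IsLittleO.add ?_ (isLittleO_log_rpow_atTop (by linarith))
        exact Asymptotics.isLittleO_const_left.2 (Or.inr ((tendsto_rpow_atTop (show (0 : ℝ) < κ / 2 by linarith)).congr' (by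
          filter_upwards [Filter.eventually_ge_atTop (0 : ℝ)] with x hx
          rw [Function.comp_apply, Real.norm_of_nonneg (Real.rpow_nonneg hx _)])))
      have h3 := h2.pow (n := 2) (by norm_num)
      refine h3.congr' (Filter.EventuallyEq.rfl) ?_
      filter_upwards [Filter.eventually_ge_atTop (0 : ℝ)] with x hx
      have h5 : (x ^ (κ / 2)) ^ 2 = x ^ κ := by
        rw [← Real.rpow_natCast (x ^ (κ / 2)) 2, ← Real.rpow_mul hx]
        congr 1
        push_cast
        ring
      exact h5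
    have h2 := (h1.bound (show (0 : ℝ) < 1 by norm_num))
    have h3 := (tendsto_natCast_atTop_atTop (R := ℝ)).eventually h2
    obtain ⟨N0, hN0⟩ := Filter.eventually_atTop.1 h3
    refine ⟨N0, fun N hN => ?_⟩
    have h4 := hN0 N hN
    rw [one_mul, Real.norm_of_nonneg (sq_nonneg _), Real.norm_of_nonneg (Real.rpow_nonneg (by positivity) _)] at h4
    exact h4
  obtain ⟨N5, hN5⟩ := hpow (2 * η) (by linarith)
  obtain ⟨N6, hN6⟩ := hpow 1 one_pos
  refine ⟨N1 + N2 + N3 + N4 + N5 + N6 + 1, fun N hN D hND hDN => ?_⟩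
  have hNpos : (0 : ℝ) < N := by exact_mod_cast (by omega : 0 < N)
  have hN1' : (1 : ℝ) ≤ N := by exact_mod_cast (by omega : 1 ≤ N)
  have hDpos : (0 : ℝ) < D := lt_of_lt_of_le (Real.rpow_pos_of_pos hNpos _) hND
  have hD1 : 1 ≤ D := by exact_mod_cast hDpos
  have hD1' : (1 : ℝ) ≤ D := by exact_mod_cast hD1
  have hDN' : (D : ℝ) ≤ N := by exact_mod_cast hDN
  have hlogN := Real.log_nonneg hN1'
  have hlogD := Real.log_nonneg hD1'
  have hlogDN : Real.log D ≤ Real.log N := Real.log_le_log hDpos hDN'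
  have hlND : Real.log (N / D) = Real.log N - Real.log D := Real.log_div hNpos.ne' hDpos.ne'
  -- the three pieces
  have hA : ∑ p ∈ (Icc 1 N).filter Nat.Prime, Real.log p ^ 2 ≤ Real.log N * ((1 + ε / 8) * N) :=
    (log_sq_sum N).trans (mul_le_mul_of_nonneg_left (hN3 N (by omega)).2 hlogN)
  have hB := hN2 N (by omega) D hD1 hDN
  have hE : ∑ t ∈ Icc 1 N, T (t / D) t ^ 2 ≤ N * ((1 + ε / 8) * Real.log (N / D) + |C|) + N := by
    have h1 := hblg D 1 1 N hD1' le_rfl le_rfl
    simp only [Nat.cast_one, one_mul] at h1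
    have h2 := (abs_le.1 h1).2
    have h3 : ∑ t ∈ Icc 1 N, T (t / D) t ^ 2 = ∑ t ∈ Icc 1 N, T (t / D) t * T (t / D) t :=
      Finset.sum_congr rfl fun t _ => by rw [pow_two]
    rw [h3]
    have h4 : ∑ t ∈ Icc 1 N, Q2 (t / D) (t / D) ≤ N * ((1 + ε / 8) * Real.log (N / D) + |C|) := by
      have h5 : ∀ t ∈ Icc 1 N, Q2 ((t : ℝ) / D) (t / D) ≤ (1 + ε / 8) * Real.log (N / D) + |C| := by
        intro t ht
        rw [Finset.mem_Icc] at ht
        have ht' : (t : ℝ) ≤ N := by exact_mod_cast ht.2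
        have h7 : 0 ≤ Real.log (N / D) := by
          rw [hlND]
          linarith
        rcases lt_or_ge ((t : ℝ) / D) 1 with h6 | h6
        · rw [Q2_zero h6]
          positivity
        · refine (hC _ h6).trans ?_
          have h8 : Real.log ((t : ℝ) / D) ≤ Real.log (N / D) :=
            Real.log_le_log (by linarith) (div_le_div_of_nonneg_right ht' hDpos.le)
          have h9 := le_abs_self C
          nlinarith
      refine (Finset.sum_le_sum h5).trans ?_
      rw [Finset.sum_const, Nat.card_Icc, nsmul_eq_mul]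
      simp
    have h5 : (N : ℝ) / D * (N / D) * ((1 + Real.log N) * (1 + Real.log N)) ≤ N := by
      have h6 : (N : ℝ) / D ≤ (N : ℝ) ^ (1 / 2 - η) := by
        rw [div_le_iff₀ hDpos]
        calc (N : ℝ) = (N : ℝ) ^ (1 / 2 - η) * (N : ℝ) ^ (1 / 2 + η) := by
              rw [← Real.rpow_add hNpos]
              norm_num
          _ ≤ _ := mul_le_mul_of_nonneg_left hND (Real.rpow_nonneg hNpos.le _)
      have h7 : (N : ℝ) / D * (N / D) ≤ (N : ℝ) ^ (1 - 2 * η) := by
        calc (N : ℝ) / D * (N / D) ≤ (N : ℝ) ^ (1 / 2 - η) * (N : ℝ) ^ (1 / 2 - η) :=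
              mul_le_mul h6 h6 (by positivity) (Real.rpow_nonneg hNpos.le _)
          _ = _ := by
              rw [← Real.rpow_add hNpos]
              congr 1
              ring
      have h8 := hN5 N (by omega)
      rw [pow_two] at h8
      calc (N : ℝ) / D * (N / D) * ((1 + Real.log N) * (1 + Real.log N)) ≤ (N : ℝ) ^ (1 - 2 * η) * (N : ℝ) ^ (2 * η) :=
            mul_le_mul h7 h8 (by positivity) (Real.rpow_nonneg hNpos.le _)
        _ = N := by
            rw [← Real.rpow_add hNpos]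
            norm_num
    linarith
  have hF : Real.log D ^ 2 ≤ N := by
    have h1 := hN6 N (by omega)
    rw [Real.rpow_one] at h1
    refine le_trans ?_ h1
    exact pow_le_pow_left₀ hlogD (by linarith) 2
  have hG := hN1 N (by omega) D hND hDN
  have hH : |C| + 2 ≤ ε / 8 * Real.log N := by
    have h1 := hN4 N (by omega)
    rw [div_le_iff₀ (by linarith)] at h1
    linarith
  have hS := sqf D N hD1
  rw [← Finset.sum_filter_add_sum_filter_not (Icc 1 N) (fun n : ℕ => Squarefree n)]
  have hfin : (N : ℝ) * (|C| + 2) ≤ N * (ε / 8 * Real.log N) := mul_le_mul_of_nonneg_left hH hNpos.le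
  have hfin2 : 0 ≤ (N : ℝ) * (ε / 8 * Real.log D) := by positivity
  have hfin3 : 0 ≤ (N : ℝ) * (ε / 8 * Real.log N) := by positivity
  rw [hlND] at hB hE
  nlinarith

end Pool.Agent.P8H88.GV
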