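import Pool.Agent.P8H5.GV.Stm

/-!
# Project GV (helper5), packages CPL and SQF: complementary divisors
-/

set_option autoImplicit false

open Finset

namespace Pool.Agent.P8H88.GV

open Pool.Agent.P8H5.GV

lemma sum_mu {n : ℕ} (hn : 2 ≤ n) : ∑ d ∈ n.divisors, mu d = 0 := by
  have h1 := congrFun (congrArg DFunLike.coe ArithmeticFunction.moebius_mul_coe_zeta) n
  rw [ArithmeticFunction.coe_mul_zeta_apply, ArithmeticFunction.one_apply_ne (by omega)] at h1
  unfold mu
  exact_mod_cast h1

lemma sum_mu_log {n : ℕ} (hn : 2 ≤ n) {y : ℝ} (hy : 0 < y) :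
    ∑ d ∈ n.divisors, mu d * Real.log (y / d) = ArithmeticFunction.vonMangoldt n := by
  have h1 : ∀ d ∈ n.divisors, mu d * Real.log (y / d) = Real.log y * mu d - mu d * Real.log d := by
    intro d hd
    have hd0 : (d : ℝ) ≠ 0 := by exact_mod_cast (Nat.pos_of_mem_divisors hd).ne'
    rw [Real.log_div hy.ne' hd0]
    ring
  rw [Finset.sum_congr rfl h1, Finset.sum_sub_distrib, ← Finset.mul_sum, sum_mu hn, mul_zero, zero_sub]
  have h2 := ArithmeticFunction.sum_moebius_mul_log_eq (n := n)
  simp only [ArithmeticFunction.log_apply] at h2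
  unfold mu
  rw [h2, neg_neg]

lemma mu_div {n m : ℕ} (hn : Squarefree n) (hm : m ∣ n) : mu (n / m) = mu n * mu m := by
  have hn0 : n ≠ 0 := hn.ne_zero
  obtain ⟨k, rfl⟩ := hm
  have hm0 : 0 < m := Nat.pos_of_ne_zero fun h => hn0 (by rw [h, zero_mul])
  rw [Nat.mul_div_cancel_left _ hm0]
  have hcop : Nat.Coprime m k := (Nat.squarefree_mul_iff.1 hn).1
  have hmsq : Squarefree m := (Nat.squarefree_mul_iff.1 hn).2.1
  unfold mu
  rw [ArithmeticFunction.isMultiplicative_moebius.map_mul_of_coprime hcop]
  have h1 : (ArithmeticFunction.moebius m : ℤ) * ArithmeticFunction.moebius m = 1 := by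
    have := ArithmeticFunction.moebius_sq_eq_one_of_squarefree hmsq
    rwa [sq] at this
  have h2 : ((ArithmeticFunction.moebius m : ℤ) : ℝ) * ((ArithmeticFunction.moebius m : ℤ) : ℝ) = 1 := by exact_mod_cast h1
  push_cast
  linear_combination -((ArithmeticFunction.moebius k : ℤ) : ℝ) * h2

/-- the sum without the divisor with logarithm zero -/
lemma T_lt (y : ℝ) (n : ℕ) (hy : 0 < y) : T y n = ∑ d ∈ n.divisors.filter (fun d : ℕ => (d : ℝ) < y), mu d * Real.log (y / d) := by
  unfold T
  symm
  refine Finset.sum_subset (fun d hd => ?_) fun d hd hd' => ?_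
  · rw [Finset.mem_filter] at hd ⊢
    exact ⟨hd.1, hd.2.le⟩
  · rw [Finset.mem_filter] at hd hd'
    have h1 : (d : ℝ) = y := le_antisymm hd.2 (not_lt.1 fun h => hd' ⟨hd.1, h⟩)
    rw [h1, div_self hy.ne', Real.log_one, mul_zero]

/-- **CPL** -/
theorem cpl : S_CPL := by
  intro n y hn hn2 hy
  have hn0 : (0 : ℝ) < n := by exact_mod_cast (by omega : 0 < n)
  have h1 := sum_mu_log hn2 hy
  rw [← Finset.sum_filter_add_sum_filter_not n.divisors (fun d : ℕ => (d : ℝ) ≤ y)] at h1
  have h2 : ∑ d ∈ n.divisors.filter (fun d : ℕ => ¬ (d : ℝ) ≤ y), mu d * Real.log (y / d) = - (mu n * T (n / y) n) := by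
    rw [T_lt _ _ (div_pos hn0 hy), Finset.mul_sum, ← Finset.sum_neg_distrib]
    refine Finset.sum_bij' (fun d _ => n / d) (fun d _ => n / d) (fun d hd => ?_) (fun d hd => ?_) (fun d hd => ?_)
      (fun d hd => ?_) fun d hd => ?_
    · rw [Finset.mem_filter] at hd ⊢
      have hdn := Nat.dvd_of_mem_divisors hd.1
      have hd0 : (0 : ℝ) < d := by exact_mod_cast Nat.pos_of_mem_divisors hd.1
      refine ⟨Nat.mem_divisors.2 ⟨Nat.div_dvd_of_dvd hdn, by omega⟩, ?_⟩
      rw [Nat.cast_div hdn hd0.ne']
      exact div_lt_div_of_pos_left hn0 hy (not_le.1 hd.2)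
    · rw [Finset.mem_filter] at hd ⊢
      have hdn := Nat.dvd_of_mem_divisors hd.1
      have hd0 : (0 : ℝ) < d := by exact_mod_cast Nat.pos_of_mem_divisors hd.1
      refine ⟨Nat.mem_divisors.2 ⟨Nat.div_dvd_of_dvd hdn, by omega⟩, ?_⟩
      rw [Nat.cast_div hdn hd0.ne', not_le, lt_div_iff₀ hd0]
      have := (lt_div_iff₀ hy).1 hd.2
      linarith
    · rw [Finset.mem_filter] at hd
      exact Nat.div_div_self (Nat.dvd_of_mem_divisors hd.1) (by omega)
    · rw [Finset.mem_filter] at hd
      exact Nat.div_div_self (Nat.dvd_of_mem_divisors hd.1) (by omega)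
    · rw [Finset.mem_filter] at hd
      have hdn := Nat.dvd_of_mem_divisors hd.1
      have hd0 : (0 : ℝ) < d := by exact_mod_cast Nat.pos_of_mem_divisors hd.1
      have h3 : mu n * mu (n / d) = mu d := by
        rw [← mu_div hn (Nat.div_dvd_of_dvd hdn), Nat.div_div_self hdn (by omega)]
      have h4 : Real.log ((n : ℝ) / y / ((n / d : ℕ) : ℝ)) = - Real.log (y / d) := by
        rw [← Real.log_inv, Nat.cast_div hdn hd0.ne']
        congr 1
        field_simp
      rw [h4, ← mul_assoc, h3]
      ring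
  rw [h2] at h1
  unfold T at h1 ⊢
  linarith

/-- **SQF** -/
theorem sqf : S_SQF := by
  intro D N hD
  have hD0 : (0 : ℝ) < D := by exact_mod_cast hD
  set S := (Icc 1 N).filter (fun n : ℕ => Squarefree n) with hS
  -- the terms
  have hterm : ∀ n ∈ S, T D n ^ 2 ≤ (if n.Prime then Real.log n ^ 2 else 0) -
      2 * (if n.Prime ∧ D < n then Real.log n * Real.log (n / D) else 0) + T (n / D) n ^ 2 +
        (if n = 1 then Real.log D ^ 2 else 0) := by
    intro n hn
    rw [hS, Finset.mem_filter, Finset.mem_Icc] at hn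
    rcases Nat.lt_or_ge n 2 with h2 | h2
    · have h1 : n = 1 := by omega
      subst h1
      rw [if_neg Nat.not_prime_one, if_neg (fun h => Nat.not_prime_one h.1), if_pos rfl]
      have h3 : T D 1 = Real.log D := by
        unfold T
        rw [Nat.divisors_one, Finset.filter_singleton, if_pos (by exact_mod_cast hD), Finset.sum_singleton]
        unfold mu
        simp
      rw [h3]
      have := sq_nonneg (T (((1 : ℕ) : ℝ) / D) 1)
      linarith
    · rw [if_neg (by omega : ¬ n = 1)]
      have h1 := cpl n D hn.2 h2 hD0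
      have hmu : mu n * mu n = 1 := by
        have := ArithmeticFunction.moebius_sq_eq_one_of_squarefree hn.2
        rw [sq] at this
        unfold mu
        exact_mod_cast this
      by_cases hp : n.Prime
      · have hT : T (n / D) n = if D < n then Real.log (n / D) else 0 := by
          have hn0 : (0 : ℝ) < n := by exact_mod_cast hp.pos
          rw [T_lt _ _ (div_pos hn0 hD0)]
          have h5 : ¬ ((n : ℝ) < (n : ℝ) / D) := by
            rw [not_lt, div_le_iff₀ hD0]
            have : (1 : ℝ) ≤ D := by exact_mod_cast hD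
            nlinarith
          rw [Nat.Prime.divisors hp, Finset.filter_insert, Finset.filter_singleton, if_neg h5]
          have h6 : (((1 : ℕ) : ℝ) < (n : ℝ) / D) ↔ D < n := by
            rw [lt_div_iff₀ hD0]
            push_cast
            rw [one_mul]
            exact_mod_cast Iff.rfl
          by_cases h7 : D < n
          · rw [if_pos (h6.2 h7), if_pos h7]
            simp [mu]
          · rw [if_neg fun h => h7 (h6.1 h), if_neg h7]
            simp
        have hL : ArithmeticFunction.vonMangoldt n = Real.log n := ArithmeticFunction.vonMangoldt_apply_prime hp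
        have hm1 : mu n = -1 := by
          unfold mu
          rw [ArithmeticFunction.moebius_apply_prime hp]
          simp
        rw [if_pos hp, h1, hL, hm1]
        by_cases h7 : D < n
        · rw [if_pos ⟨hp, h7⟩, hT, if_pos h7]
          nlinarith
        · rw [if_neg (fun h => h7 h.2), hT, if_neg h7]
          nlinarith
      · have hL : ArithmeticFunction.vonMangoldt n = 0 := by
          rw [ArithmeticFunction.vonMangoldt_eq_zero_iff]
          intro hpp
          obtain ⟨p, k, hp', hk, rfl⟩ := hpp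
          have hp'' := hp'.nat_prime
          have : k = 1 := by
            by_contra hk1
            have hk2 : 2 ≤ k := by omega
            have h8 : p * p ∣ p ^ k := by
              rw [← sq]
              exact pow_dvd_pow p hk2
            exact hp''.one_lt.ne' (Nat.isUnit_iff.1 (hn.2 p h8))
          rw [this, pow_one] at hp
          exact hp hp''
        rw [if_neg hp, if_neg (fun h => hp h.1), h1, hL]
        nlinarith [hmu, sq_nonneg (T (n / D) n)]
  refine (Finset.sum_le_sum hterm).trans ?_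
  rw [Finset.sum_add_distrib, Finset.sum_add_distrib, Finset.sum_sub_distrib, ← Finset.mul_sum]
  have e1 : ∑ n ∈ S, (if n.Prime then Real.log n ^ 2 else 0) = ∑ p ∈ (Icc 1 N).filter Nat.Prime, Real.log p ^ 2 := by
    rw [← Finset.sum_filter]
    refine Finset.sum_congr ?_ fun _ _ => rfl
    ext n
    rw [hS, Finset.mem_filter, Finset.mem_filter, Finset.mem_filter]
    exact ⟨fun h => ⟨h.1.1, h.2⟩, fun h => ⟨⟨h.1, h.2.squarefree⟩, h.2⟩⟩
  have e2 : ∑ n ∈ S, (if n.Prime ∧ D < n then Real.log n * Real.log (n / D) else 0) =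
      ∑ p ∈ (Ioc D N).filter Nat.Prime, Real.log p * Real.log (p / D) := by
    rw [← Finset.sum_filter]
    refine Finset.sum_congr ?_ fun _ _ => rfl
    ext n
    rw [hS, Finset.mem_filter, Finset.mem_filter, Finset.mem_filter, Finset.mem_Icc, Finset.mem_Ioc]
    exact ⟨fun h => ⟨⟨h.2.2, h.1.1.2⟩, h.2.1⟩, fun h => ⟨⟨⟨by omega, h.1.2⟩, h.2.squarefree⟩, h.2, h.1.1⟩⟩
  have e3 : ∑ n ∈ S, T (n / D) n ^ 2 ≤ ∑ t ∈ Icc 1 N, T (t / D) t ^ 2 :=
    Finset.sum_le_sum_of_subset_of_nonneg (Finset.filter_subset _ _) fun _ _ _ => sq_nonneg _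
  have e4 : ∑ n ∈ S, (if n = 1 then Real.log D ^ 2 else 0) ≤ Real.log D ^ 2 := by
    rw [Finset.sum_ite_eq']
    split_ifs
    · exact le_rfl
    · positivity
  rw [e1, e2]
  linarith

end Pool.Agent.P8H88.GV
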